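import Pool.Agent.Helper93.TLE.StB7

/-!
# Project TLE, module Core27: the case of level `49`
-/

set_option autoImplicit false

namespace Pool.Agent.Helper66.TLE

open Pool.Agent.Helper14.CV (Homog EqC act Tl StFar StFex)
open Pool.Agent.Helper28.WK (Tw evw)
open Pool.Agent.Helper4.TL Pool.Agent.Helper93.TLE

private theorem tw_congr (p : ℕ) (ls : List ℕ) (hls : OkE p ls) {G H : ℤ → ℤ → ℂ} (h : EqC G H) :
    EqC (Tw 2 ls G) (Tw 2 ls H) := by
  induction ls with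
  | nil => exact h
  | cons l ls ih =>
    exact (ih fun x hx => hls x (List.mem_cons_of_mem _ hx)).Tl
      (hls l List.mem_cons_self).1.pos 2

private theorem evLE_apply (p : ℕ) (G : ℤ → ℤ → ℂ) (ls : List ℕ) (hls : OkE p ls) :
    evLE p G ls = evw 2 ls G := if_pos hls

private theorem evLE_apply' (p : ℕ) (G : ℤ → ℤ → ℂ) (ls : List ℕ) (hls : ¬ OkE p ls) :
    evLE p G ls = 0 := if_neg hls

private theorem evLE_congr (p : ℕ) {G H : ℤ → ℤ → ℂ} (h : EqC G H) : evLE p G = evLE p H := by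
  funext ls
  by_cases hls : OkE p ls
  · rw [evLE_apply _ _ _ hls, evLE_apply _ _ _ hls]
    exact (tw_congr p ls hls h).diff (Or.inl one_ne_zero) (Or.inr one_ne_zero)
  · rw [evLE_apply' _ _ _ hls, evLE_apply' _ _ _ hls]

/-- linear algebra -/
private theorem lin {V X ι : Type} [AddCommGroup V] [Module ℂ V] [AddCommGroup X] [Module ℂ X]
    [Fintype ι] (D : ℕ) (f : V →ₗ[ℂ] X) (g : V →ₗ[ℂ] (Fin D → ℂ))
    (hker : LinearMap.ker g ≤ LinearMap.ker f) (v : ι → X) (hv : LinearIndependent ℂ v)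
    (hr : ∀ k, v k ∈ LinearMap.range f) (hD : D ≤ Fintype.card ι) :
    ∀ K : V, f K = 0 → g K = 0 := by
  let h : LinearMap.range g →ₗ[ℂ] X :=
    (Submodule.liftQ (LinearMap.ker g) f hker) ∘ₗ (g.quotKerEquivRange.symm).toLinearMap
  have hh : ∀ K : V, h ⟨g K, LinearMap.mem_range_self g K⟩ = f K := by
    intro K
    have h1 : g.quotKerEquivRange.symm ⟨g K, LinearMap.mem_range_self g K⟩ =
        (LinearMap.ker g).mkQ K := by
      rw [LinearEquiv.symm_apply_eq]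
      rfl
    show (Submodule.liftQ (LinearMap.ker g) f hker)
      (g.quotKerEquivRange.symm ⟨g K, LinearMap.mem_range_self g K⟩) = f K
    rw [h1]
    rfl
  have hrange : LinearMap.range f ≤ LinearMap.range h := by
    rintro x ⟨K, rfl⟩
    exact ⟨⟨g K, LinearMap.mem_range_self g K⟩, hh K⟩
  have hli' : LinearIndependent ℂ (fun k => (⟨v k, hrange (hr k)⟩ : LinearMap.range h)) := by
    refine LinearIndependent.of_comp (LinearMap.range h).subtype ?_
    exact hv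
  have h4 := hli'.fintype_card_le_finrank
  have h5 := LinearMap.finrank_range_add_finrank_ker h
  have h6 : Module.finrank ℂ (LinearMap.range g) ≤ D := by
    have := Submodule.finrank_le (LinearMap.range g)
    simpa using this
  have h7 : Module.finrank ℂ (LinearMap.ker h) = 0 := by omega
  have h8 : LinearMap.ker h = ⊥ := Submodule.finrank_eq_zero.mp h7
  intro K hK
  have h9 : (⟨g K, LinearMap.mem_range_self g K⟩ : LinearMap.range g) ∈ LinearMap.ker h := by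
    rw [LinearMap.mem_ker, hh, hK]
  rw [h8, Submodule.mem_bot] at h9
  exact congrArg Subtype.val h9

/-- the symbols with the signs -/
private def V0 : Submodule ℂ (ℤ → ℤ → ℂ) where
  carrier := {K | SymE 7 0 2 K ∧ EqC (act 0 (-1) (((7 : ℕ) : ℤ) ^ 2) 0 K) (-K) ∧
    EqC (act (-1) 0 0 1 K) K}
  add_mem' := by
    rintro K L ⟨h1, h2, h3⟩ ⟨k1, k2, k3⟩
    refine ⟨h1.add k1, ?_, h3.add k3⟩
    rw [neg_add]
    exact h2.add k2
  zero_mem' := by
    refine ⟨SymE.zero 7 0 2, ?_, Pool.Agent.Helper14.CV.EqC.refl _⟩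
    rw [neg_zero]
    exact Pool.Agent.Helper14.CV.EqC.refl _
  smul_mem' := by
    rintro s K ⟨h1, h2, h3⟩
    refine ⟨h1.smul s, ?_, h3.smul s⟩
    rw [← smul_neg]
    exact h2.smul s

/-- the three values -/
private def av : (ℤ → ℤ → ℂ) →ₗ[ℂ] (Fin 3 → ℂ) where
  toFun K := ![K 1 0 - K 1 7, K 1 7 - K 4 21, K 4 21 - K 2 7]
  map_add' K L := by
    ext i
    fin_cases i <;> simp <;> ring
  map_smul' s K := by
    ext i
    fin_cases i <;> simp <;> ring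

private theorem symmet (hA : SEAvg) (hE : SEEv) (G : ℤ → ℤ → ℂ) (hG : SymE 7 0 2 G) :
    ∃ K ∈ V0, evLE 7 K = evLE 7 G := by
  have h7 : Nat.Prime 7 := by norm_num
  have hav : ∀ H : ℤ → ℤ → ℂ, SymE 7 0 2 H → SymE 7 0 2 (act 0 (-1) (((7 : ℕ) : ℤ) ^ 2) 0 H) ∧
      SymE 7 0 2 (act (-1) 0 0 1 H) := fun H hH =>
    ⟨(hA 7 h7 (by norm_num) 2 H le_rfl hH).2.2.2.1, (hA 7 h7 (by norm_num) 2 H le_rfl hH).2.2.2.2⟩
  have hW := (hav G hG).1
  have hS := (hav G hG).2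
  have hSW := (hav _ hW).2
  have hev : ∀ H : ℤ → ℤ → ℂ, SymE 7 0 2 H →
      evLE 7 (act 0 (-1) (((7 : ℕ) : ℤ) ^ 2) 0 H) = -evLE 7 H ∧
      evLE 7 (act (-1) 0 0 1 H) = evLE 7 H := by
    intro H hH
    constructor
    · funext ls
      by_cases hls : OkE 7 ls
      · rw [Pi.neg_apply, evLE_apply _ _ _ hls, evLE_apply _ _ _ hls]
        exact (hE 7 h7 (by norm_num) ℂ inferInstance 2 H hH ls hls).1
      · rw [Pi.neg_apply, evLE_apply' _ _ _ hls, evLE_apply' _ _ _ hls, neg_zero]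
    · funext ls
      by_cases hls : OkE 7 ls
      · rw [evLE_apply _ _ _ hls, evLE_apply _ _ _ hls]
        exact (hE 7 h7 (by norm_num) ℂ inferInstance 2 H hH ls hls).2
      · rw [evLE_apply' _ _ _ hls, evLE_apply' _ _ _ hls]
  -- relations
  have c1 : EqC (act 0 (-1) (((7 : ℕ) : ℤ) ^ 2) 0 (act 0 (-1) (((7 : ℕ) : ℤ) ^ 2) 0 G)) G := by
    rw [Pool.Agent.Helper14.CV.act_act]
    have h1 := hG.1.scale (a := 1) (b := 0) (c := 0) (d := 1) (-49) (by norm_num) (by norm_num)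
    rw [Pool.Agent.Helper14.CV.act_one] at h1
    norm_num at h1 ⊢
    exact h1
  have c2 : act (-1) 0 0 1 (act (-1) 0 0 1 G) = G := by
    rw [Pool.Agent.Helper14.CV.act_act]
    norm_num
    exact Pool.Agent.Helper14.CV.act_one G
  have c3 : ∀ H : ℤ → ℤ → ℂ, Homog H →
      EqC (act 0 (-1) (((7 : ℕ) : ℤ) ^ 2) 0 (act (-1) 0 0 1 H))
        (act (-1) 0 0 1 (act 0 (-1) (((7 : ℕ) : ℤ) ^ 2) 0 H)) := by
    intro H hH
    rw [Pool.Agent.Helper14.CV.act_act, Pool.Agent.Helper14.CV.act_act]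
    have h1 := hH.scale (a := 0) (b := -1) (c := -49) (d := 0) (-1) (by norm_num) (by norm_num)
    norm_num at h1 ⊢
    exact h1
  have c4 : EqC (act 0 (-1) (((7 : ℕ) : ℤ) ^ 2) 0 (act (-1) 0 0 1
      (act 0 (-1) (((7 : ℕ) : ℤ) ^ 2) 0 G))) (act (-1) 0 0 1 G) :=
    (c3 _ hW.1).trans (c1.act (by norm_num))
  have c5 : act (-1) 0 0 1 (act (-1) 0 0 1 (act 0 (-1) (((7 : ℕ) : ℤ) ^ 2) 0 G)) =
      act 0 (-1) (((7 : ℕ) : ℤ) ^ 2) 0 G := by
    rw [Pool.Agent.Helper14.CV.act_act]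
    norm_num
    exact Pool.Agent.Helper14.CV.act_one _
  refine ⟨(1 / 4 : ℂ) • (G - act 0 (-1) (((7 : ℕ) : ℤ) ^ 2) 0 G + act (-1) 0 0 1 G -
    act (-1) 0 0 1 (act 0 (-1) (((7 : ℕ) : ℤ) ^ 2) 0 G)), ⟨?_, ?_, ?_⟩, ?_⟩
  · refine SymE.smul _ ?_
    rw [sub_eq_add_neg, sub_eq_add_neg]
    exact ((hG.add hW.neg).add hS).add hSW.neg
  · rw [Pool.Agent.Helper14.CV.act_smul, ← smul_neg]
    refine EqC.smul _ ?_
    rw [Pool.Agent.Helper14.CV.act_sub, Pool.Agent.Helper14.CV.act_add,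
      Pool.Agent.Helper14.CV.act_sub]
    have h1 := (((Pool.Agent.Helper14.CV.EqC.refl
      (act 0 (-1) (((7 : ℕ) : ℤ) ^ 2) 0 G)).sub c1).add (c3 G hG.1)).sub c4
    refine h1.trans (EqC.of_eq fun x y _ => ?_)
    simp only [Pi.sub_apply, Pi.add_apply, Pi.neg_apply]
    ring
  · rw [Pool.Agent.Helper14.CV.act_smul]
    refine EqC.smul _ ?_
    rw [Pool.Agent.Helper14.CV.act_sub, Pool.Agent.Helper14.CV.act_add,
      Pool.Agent.Helper14.CV.act_sub, c2, c5]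
    refine EqC.of_eq fun x y _ => ?_
    simp only [Pi.sub_apply, Pi.add_apply]
    ring
  · rw [map_smul, map_sub, map_add, map_sub, (hev G hG).1, (hev G hG).2, (hev _ hW).2, (hev G hG).1]
    funext ls
    simp only [Pi.smul_apply, Pi.sub_apply, Pi.add_apply, Pi.neg_apply, smul_eq_mul]
    ring

/-- Core27. -/
theorem hCore27 : SECore27 := by
  intro dd hA hE hB hLB G hG hW hS hz
  obtain ⟨F, hF, hli⟩ := hLB 2 le_rfl
  have hcard : 3 ≤ Fintype.card (Fin (DDE 3 dd 2)) := by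
    rw [Fintype.card_fin]
    unfold DDE
    omega
  have hBs : ∀ K : ℤ → ℤ → ℂ, K ∈ V0 → av K = 0 → EqC K 0 := by
    rintro K ⟨h1, h2, h3⟩ h4
    have e0 : K 1 0 - K 1 7 = 0 := congrFun h4 0
    have e1 : K 1 7 - K 4 21 = 0 := congrFun h4 1
    have e2 : K 4 21 - K 2 7 = 0 := congrFun h4 2
    exact hB K h1 h2 h3 (sub_eq_zero.mp e0) (sub_eq_zero.mp e1) (sub_eq_zero.mp e2)
  have hker : LinearMap.ker (av ∘ₗ V0.subtype) ≤ LinearMap.ker (evLE 7 ∘ₗ V0.subtype) := by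
    intro K hK
    have h1 : EqC (K : ℤ → ℤ → ℂ) 0 := hBs K K.2 (LinearMap.mem_ker.mp hK)
    refine LinearMap.mem_ker.mpr ?_
    show evLE 7 (K : ℤ → ℤ → ℂ) = 0
    rw [evLE_congr 7 h1]
    exact map_zero _
  have hr : ∀ k, evLE 7 (F k) ∈ LinearMap.range (evLE 7 ∘ₗ V0.subtype) := by
    intro k
    obtain ⟨K, hK, he⟩ := symmet hA hE (F k) (hF k)
    exact ⟨⟨K, hK⟩, he⟩
  have hGV : G ∈ V0 := ⟨hG, hW, hS⟩
  have hGz : (evLE 7 ∘ₗ V0.subtype) ⟨G, hGV⟩ = 0 := by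
    show evLE 7 G = 0
    funext ls
    by_cases hls : OkE 7 ls
    · rw [evLE_apply _ _ _ hls, hz ls hls]
      rfl
    · rw [evLE_apply' _ _ _ hls]
      rfl
  exact hBs G hGV (lin 3 (evLE 7 ∘ₗ V0.subtype) (av ∘ₗ V0.subtype) hker _ hli hr hcard ⟨G, hGV⟩ hGz)

end Pool.Agent.Helper66.TLE
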